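import Pool.Agent.Helper50.KP.LOW

/-!
# Project KP, packet KNT (the diagrams are knot diagrams)
-/

set_option autoImplicit false

namespace Pool.Agent.Helper71.KP

open Pool.Agent.Helper50.KP

/-- every entry twice -/
def dbl : List Bool → List Bool
  | [] => []
  | x :: l => x :: x :: dbl l

theorem dbl_append (A B : List Bool) : dbl (A ++ B) = dbl A ++ dbl B := by
  induction A with
  | nil => rfl
  | cons a A ih => rw [List.cons_append, dbl, dbl, ih]; rfl

theorem dbl_length (A : List Bool) : (dbl A).length = 2 * A.length := by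
  induction A with
  | nil => rfl
  | cons a A ih => rw [dbl, List.length_cons, List.length_cons, List.length_cons, ih]; omega

theorem dbl_reverse (A : List Bool) : (dbl A).reverse = dbl A.reverse := by
  induction A with
  | nil => rfl
  | cons a A ih =>
    rw [dbl, List.reverse_cons, List.reverse_cons, List.reverse_cons, dbl_append, ih,
      List.append_assoc]
    rfl

theorem lab_cup (w : Word) (ch A L : List Bool) (k : ℕ) (hA : A.length = k)
    (h : Lab ((.cup, k) :: w) ch (A ++ L)) :
    ∃ b c', ch = b :: c' ∧ Lab w c' (A ++ b :: b :: L) := by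
  obtain ⟨b, c', h1, h2⟩ := h
  refine ⟨b, c', h1, ?_⟩
  rwa [← hA, List.take_left, List.drop_left] at h2

theorem lab_cap (w : Word) (ch A L : List Bool) (k : ℕ) (hA : A.length = k)
    (h : Lab ((.cap, k) :: w) ch (A ++ L)) :
    ∃ b R, L = b :: b :: R ∧ Lab w ch (A ++ R) := by
  obtain ⟨b, R, h1, h2⟩ := h
  refine ⟨b, R, ?_, ?_⟩
  · rwa [← hA, List.drop_left] at h1
  · rwa [← hA, List.take_left] at h2

theorem lab_X (s : Bool) (w : Word) (ch A L : List Bool) (k : ℕ) (hA : A.length = k)
    (h : Lab ((.X s, k) :: w) ch (A ++ L)) :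
    ∃ a b R, L = a :: b :: R ∧ Lab w ch (A ++ b :: a :: R) := by
  obtain ⟨a, b, R, h1, h2⟩ := h
  refine ⟨a, b, R, ?_, ?_⟩
  · rwa [← hA, List.drop_left] at h1
  · rwa [← hA, List.take_left] at h2

theorem lab_low (N p : ℕ) (w : Word) (ch : List Bool) (t : Bool) (P : Prog) :
    ∀ (c c' : ℕ) (A B : List Bool), fn N c P = some c' → A.length = p + 2 * c →
      Lab (low p c P ++ w) ch (A ++ t :: B) →
      ∃ A' B', A'.length = p + 2 * c' ∧ A' ++ B' = A ++ B ∧ Lab w ch (A' ++ t :: B') := by
  induction P with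
  | nil =>
    intro c c' A B h hA hL
    rw [fn_nil, Option.some.injEq] at h
    rw [low_nil] at hL
    exact ⟨A, B, by rw [hA, h], rfl, hL⟩
  | cons I P ih =>
    intro c c' A B h hA hL
    cases I with
    | D s =>
      rw [fn_D] at h
      split_ifs at h with h1
      rw [low_D] at hL
      obtain ⟨a, b, R, e1, l1⟩ := lab_X _ _ _ A (t :: B) _ hA hL
      rw [List.cons.injEq] at e1
      obtain ⟨e1, e2⟩ := e1
      subst e1
      have l1' : Lab ((.X s, p + 2 * c + 1) :: (low p (c + 1) P ++ w)) ch
          ((A ++ [b]) ++ t :: R) := by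
        rw [List.append_assoc]
        exact l1
      obtain ⟨a', b', R', e3, l2⟩ := lab_X _ _ _ (A ++ [b]) (t :: R) _
        (by rw [List.length_append, hA]; rfl) l1'
      rw [List.cons.injEq] at e3
      obtain ⟨e3, e4⟩ := e3
      subst e3
      have l2' : Lab (low p (c + 1) P ++ w) ch ((A ++ [b, b']) ++ t :: R') := by
        rw [List.append_assoc] at l2 ⊢
        exact l2
      obtain ⟨A', B', f1, f2, f3⟩ := ih (c + 1) c' (A ++ [b, b']) R' h
        (by rw [List.length_append, hA]; show p + 2 * c + 2 = _; omega) l2'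
      refine ⟨A', B', f1, ?_, f3⟩
      rw [f2, e2, e4, List.append_assoc]
      rfl
    | U s =>
      cases c with
      | zero => exact absurd h (by rw [fn_U0]; simp)
      | succ c =>
        rw [fn_U] at h
        rw [low_U] at hL
        have hd : (A.drop (p + 2 * c)).length = 2 := by
          rw [List.length_drop, hA]; omega
        obtain ⟨x, y, hxy⟩ := List.length_eq_two.mp hd
        have hA0 : A = A.take (p + 2 * c) ++ [x, y] := by
          rw [← hxy, List.take_append_drop]
        have hl : (A.take (p + 2 * c)).length = p + 2 * c := by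
          rw [List.length_take, hA]; omega
        generalize A.take (p + 2 * c) = A0 at hA0 hl
        subst hA0
        have hL' : Lab ((.X (!s), p + 2 * c + 1) :: (.X (!s), p + 2 * c) :: (low p c P ++ w)) ch
            ((A0 ++ [x]) ++ y :: t :: B) := by
          rw [List.append_assoc] at hL ⊢
          exact hL
        obtain ⟨a, b, R, e1, l1⟩ := lab_X _ _ _ (A0 ++ [x]) (y :: t :: B) _
          (by rw [List.length_append, hl]; rfl) hL'
        rw [List.cons.injEq, List.cons.injEq] at e1
        obtain ⟨e1, e2, e3⟩ := e1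
        subst e1 e2 e3
        have l1' : Lab ((.X (!s), p + 2 * c) :: (low p c P ++ w)) ch
            (A0 ++ x :: t :: y :: B) := by
          rw [List.append_assoc] at l1
          exact l1
        obtain ⟨a', b', R', e4, l2⟩ := lab_X _ _ _ A0 (x :: t :: y :: B) _ hl l1'
        rw [List.cons.injEq, List.cons.injEq] at e4
        obtain ⟨e4, e5, e6⟩ := e4
        subst e4 e5 e6
        obtain ⟨A', B', f1, f2, f3⟩ := ih c c' A0 (x :: y :: B) h hl l2
        refine ⟨A', B', f1, ?_, f3⟩
        rw [f2, List.append_assoc]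
        rfl

theorem lab_low0 (N p : ℕ) (w : Word) (ch : List Bool) (t : Bool) (P : Prog) (A B : List Bool)
    (h : fn N 0 P = some 0) (hA : A.length = p) (hL : Lab (low p 0 P ++ w) ch (A ++ t :: B)) :
    Lab w ch (A ++ t :: B) := by
  obtain ⟨A', B', f1, f2, f3⟩ := lab_low N p w ch t P 0 0 A B h (by omega) hL
  have := List.append_inj f2 (by omega)
  rw [this.1, this.2] at f3
  exact f3

theorem lab_rep (w : Word) (r : Bool) : ∀ (m : ℕ) (ch L : List Bool),
    Lab (List.replicate m (.cup, 1) ++ w) ch (r :: L) →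
    ∃ xs ch', ch = xs ++ ch' ∧ xs.length = m ∧ Lab w ch' (r :: (dbl xs.reverse ++ L)) := by
  intro m
  induction m with
  | zero =>
    intro ch L h
    exact ⟨[], ch, rfl, rfl, h⟩
  | succ m ih =>
    intro ch L h
    rw [List.replicate_succ, List.cons_append] at h
    obtain ⟨b, c', e1, l1⟩ := lab_cup _ _ [r] L 1 rfl h
    obtain ⟨xs, ch', e2, e3, l2⟩ := ih c' (b :: b :: L) l1
    refine ⟨b :: xs, ch', by rw [e1, e2]; rfl, by rw [List.length_cons, e3], ?_⟩
    rw [List.reverse_cons, dbl_append, List.append_assoc]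
    exact l2

theorem lab_base (n : ℕ) (w : Word) (ch : List Bool) (h : Lab (base n ++ w) ch []) :
    ∃ r xs ch', ch = r :: (xs ++ ch') ∧ xs.length = 2 * n ∧
      Lab w ch' (r :: (dbl xs.reverse ++ [r])) := by
  obtain ⟨r, c', e1, l1⟩ := lab_cup _ _ [] [] 0 rfl h
  obtain ⟨xs, ch', e2, e3, l2⟩ := lab_rep w r (2 * n) c' [r] l1
  exact ⟨r, xs, ch', by rw [e1, e2], e3, l2⟩

theorem lab_col (hI : INV) (N i : ℕ) (w : Word) (E : Prog) (hE : fn N 0 E = some 0)
    (ch T L : List Bool) (hT : T.length = 4 * i) (h : Lab (col i E ++ w) ch (T ++ L)) :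
    ∃ a b ch', ch = a :: b :: ch' ∧ Lab w ch' (T ++ a :: a :: b :: b :: L) := by
  unfold col at h
  rw [List.append_assoc, List.cons_append, List.cons_append] at h
  obtain ⟨a, c1, e1, l1⟩ := lab_cup _ _ T L _ hT h
  have l1' : Lab (low (4 * i + 1) 0 E ++
      ((.cup, 4 * i + 2) :: (low (4 * i + 3) 0 (inv E) ++ w))) c1 ((T ++ [a]) ++ a :: L) := by
    rw [List.append_assoc]
    exact l1
  have l2 := lab_low0 N _ _ _ _ E (T ++ [a]) L hE (by rw [List.length_append, hT]; rfl) l1'
  have l2' : Lab ((.cup, 4 * i + 2) :: (low (4 * i + 3) 0 (inv E) ++ w)) c1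
      ((T ++ [a, a]) ++ L) := by
    rw [List.append_assoc] at l2 ⊢
    exact l2
  obtain ⟨b, c2, e2, l3⟩ := lab_cup _ _ (T ++ [a, a]) L _
    (by rw [List.length_append, hT]; rfl) l2'
  have l3' : Lab (low (4 * i + 3) 0 (inv E) ++ w) c2 ((T ++ [a, a, b]) ++ b :: L) := by
    rw [List.append_assoc] at l3 ⊢
    exact l3
  have l4 := lab_low0 N _ _ _ _ (inv E) (T ++ [a, a, b]) L
    (hI.1 N 0 0 E (Nat.zero_le _) hE).2.1 (by rw [List.length_append, hT]; rfl) l3'
  refine ⟨a, b, c2, by rw [e1, e2], ?_⟩
  rw [List.append_assoc] at l4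
  exact l4

theorem lab_cols (hI : INV) (N : ℕ) (w : Word) : ∀ (Es : List Prog) (i : ℕ) (ch T L : List Bool),
    (∀ E ∈ Es, fn N 0 E = some 0) → T.length = 4 * i → Lab (cols i Es ++ w) ch (T ++ L) →
    ∃ ys ch', ch = ys ++ ch' ∧ ys.length = 2 * Es.length ∧ Lab w ch' (T ++ (dbl ys ++ L)) := by
  intro Es
  induction Es with
  | nil =>
    intro i ch T L _ _ h
    exact ⟨[], ch, rfl, rfl, h⟩
  | cons E Es ih =>
    intro i ch T L hE hT h
    have h' : Lab (col i E ++ (cols (i + 1) Es ++ w)) ch (T ++ L) := by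
      rw [← List.append_assoc]
      exact h
    obtain ⟨a, b, c1, e1, l1⟩ := lab_col hI N i _ E (hE E List.mem_cons_self) ch T L hT h'
    have l1' : Lab (cols (i + 1) Es ++ w) c1 ((T ++ [a, a, b, b]) ++ L) := by
      rw [List.append_assoc]
      exact l1
    obtain ⟨ys, ch', e2, e3, l2⟩ := ih (i + 1) c1 (T ++ [a, a, b, b]) L
      (fun E' h' => hE E' (List.mem_cons_of_mem _ h'))
      (by rw [List.length_append, hT]; show 4 * i + 4 = _; omega) l1'
    refine ⟨a :: b :: ys, ch', by rw [e1, e2]; rfl, ?_, ?_⟩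
    · rw [List.length_cons, List.length_cons, List.length_cons, e3]; omega
    · rw [List.append_assoc] at l2
      exact l2

theorem lab_nest (w : Word) : ∀ (k : ℕ) (ch T L : List Bool), T.length = k →
    Lab (nest k ++ w) ch (T ++ L) → ∃ R, L = T.reverse ++ R ∧ Lab w ch R := by
  intro k
  induction k with
  | zero =>
    intro ch T L hT h
    have hT' : T = [] := List.length_eq_zero_iff.mp hT
    subst hT'
    exact ⟨L, rfl, h⟩
  | succ k ih =>
    intro ch T L hT h
    have hd : (T.drop k).length = 1 := by rw [List.length_drop, hT]; omega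
    obtain ⟨x, hx⟩ := List.length_eq_one_iff.mp hd
    have hT0 : T = T.take k ++ [x] := by rw [← hx, List.take_append_drop]
    have hl : (T.take k).length = k := by rw [List.length_take, hT]; omega
    generalize T.take k = T0 at hT0 hl
    subst hT0
    have h' : Lab ((.cap, k) :: (nest k ++ w)) ch (T0 ++ x :: L) := by
      rw [List.append_assoc] at h
      exact h
    obtain ⟨b, R, e1, l1⟩ := lab_cap _ _ T0 (x :: L) k hl h'
    rw [List.cons.injEq] at e1
    obtain ⟨R', e2, l2⟩ := ih ch T0 R hl l1
    refine ⟨R', ?_, l2⟩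
    rw [e1.2, ← e1.1, e2, List.reverse_append]
    rfl

theorem dbl_rot (r : Bool) : ∀ A B : List Bool, A.length = B.length →
    dbl A ++ [r] = r :: dbl B → (∀ x ∈ A, x = r) ∧ ∀ x ∈ B, x = r := by
  intro A
  induction A with
  | nil =>
    intro B hB _
    have : B = [] := List.length_eq_zero_iff.mp hB.symm
    subst this
    exact ⟨fun x hx => absurd hx List.not_mem_nil, fun x hx => absurd hx List.not_mem_nil⟩
  | cons a A ih =>
    intro B hB h
    cases B with
    | nil => exact absurd hB (by simp)
    | cons b B =>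
      rw [dbl, dbl, List.cons_append, List.cons_append, List.cons.injEq, List.cons.injEq] at h
      obtain ⟨h1, h2, h3⟩ := h
      have hb : b = r := by rw [← h2, h1]
      rw [hb] at h3
      obtain ⟨i1, i2⟩ := ih B (by simpa using hB) h3
      refine ⟨fun x hx => ?_, fun x hx => ?_⟩
      · rcases List.mem_cons.mp hx with hx | hx
        · rw [hx, h1]
        · exact i1 x hx
      · rcases List.mem_cons.mp hx with hx | hx
        · rw [hx, hb]
        · exact i2 x hx

theorem gKNT (_hSTR : STR) (_hLOW : LOW) (hINV : INV) (hDIA : DIA) : KNT := by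
  intro Es hE
  refine ⟨hDIA Es hE, ?_, ?_⟩
  · unfold dia base
    simp
  · intro c hc
    have key : ∃ r, ∀ x ∈ c, x = r := by
      unfold dia at hc
      rw [List.append_assoc, List.append_assoc] at hc
      obtain ⟨r, xs, c1, e1, x1, l1⟩ := lab_base _ _ _ hc
      obtain ⟨ys, c2, e2, y1, l2⟩ := lab_cols hINV (2 * Es.length) _ Es 0 c1 []
        (r :: (dbl xs.reverse ++ [r])) hE rfl l1
      obtain ⟨R, e3, l3⟩ := lab_nest _ (4 * Es.length) c2 (dbl ys)
        (r :: (dbl xs.reverse ++ [r])) (by rw [dbl_length, y1]; omega) l2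
      obtain ⟨b, R', e4, l4⟩ := lab_cap [] c2 [] R 0 rfl l3
      obtain ⟨e5, e6⟩ := l4
      rw [List.nil_append] at e6
      subst e6
      have e7 : (r :: dbl xs.reverse) ++ [r] = (dbl ys.reverse ++ [b]) ++ [b] := by
        rw [List.append_assoc]
        rw [e4, dbl_reverse] at e3
        exact e3
      obtain ⟨e8, e9⟩ := List.append_inj' e7 rfl
      have hb : r = b := by simpa using e9
      subst hb
      obtain ⟨i1, i2⟩ := dbl_rot r ys.reverse xs.reverse
        (by rw [List.length_reverse, List.length_reverse, x1, y1]) e8.symm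
      refine ⟨r, fun x hx => ?_⟩
      rw [e1, e2, e5, List.append_nil] at hx
      rcases List.mem_cons.mp hx with hx | hx
      · exact hx
      · rcases List.mem_append.mp hx with hx | hx
        · exact i2 x (List.mem_reverse.mpr hx)
        · exact i1 x (List.mem_reverse.mpr hx)
    obtain ⟨r, hr⟩ := key
    intro x hx y hy
    rw [hr x hx, hr y hy]

end Pool.Agent.Helper71.KP
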